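import Pool.Agent.Lib.MP_d55432_al.G2.H6.Weyl

/-!
# G2, module NILD: nilpotent elements adapted to a good flag
-/

namespace Pool.Agent.Lib.MP_d55432_al.G2.H38

open Matrix
open H6 (Cj.symm')

attribute [local instance 100] LieRing.ofAssociativeRing

variable {K : Type*} [Field K]

theorem ext_mv {A B : M7 K} (h : ∀ x, A *ᵥ x = B *ᵥ x) : A = B := by
  ext i j
  have := congrFun (h (Pi.single j 1)) i
  simpa using this

/-- The general element adapted to the flag. -/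
def X5 (p r b d c : K) : M7 K := gM ![0, 0, p, r, 0, b, 0, 0, d, 0, 0, 0, 1, c]

theorem X5_mv (p r b d c : K) (x : V7 K) : X5 p r b d c *ᵥ x = ![
    -x 2 - c * x 3 - d * x 4,
    2 * d * x 0 + p * x 2 + r * x 3 - c * x 5 + x 6,
    b * x 3 + c * x 4,
    -x 4,
    0,
    2 * x 0 - d * x 3 - p * x 4,
    2 * c * x 0 + d * x 2 - r * x 4 - b * x 5] := by
  funext i
  fin_cases i <;> simp [X5, gM, Matrix.mulVec, dotProduct, Fin.sum_univ_succ] <;> ring

/-- The conjugating elements. -/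
def eB (s : K) : M7 K := !![
  1, 0, 0, 0, 0, 0, 0;
  0, 1, 0, 0, 0, 0, 0;
  0, 0, 1, s, 0, 0, 0;
  0, 0, 0, 1, 0, 0, 0;
  0, 0, 0, 0, 1, 0, 0;
  0, 0, 0, 0, 0, 1, 0;
  0, 0, 0, 0, 0, -s, 1]

@[inherit_doc eB]
def eAB (s : K) : M7 K := !![
  1, 0, 0, -s, 0, 0, 0;
  0, 1, 0, 0, 0, -s, 0;
  0, 0, 1, 0, s, 0, 0;
  0, 0, 0, 1, 0, 0, 0;
  0, 0, 0, 0, 1, 0, 0;
  0, 0, 0, 0, 0, 1, 0;
  2 * s, 0, 0, -s ^ 2, 0, 0, 1]

@[inherit_doc eB]
def eAAB (s : K) : M7 K := !![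
  1, 0, 0, 0, -s, 0, 0;
  2 * s, 1, 0, 0, -s ^ 2, 0, 0;
  0, 0, 1, 0, 0, 0, 0;
  0, 0, 0, 1, 0, 0, 0;
  0, 0, 0, 0, 1, 0, 0;
  0, 0, 0, -s, 0, 1, 0;
  0, 0, s, 0, 0, 0, 1]

@[inherit_doc eB]
def eC (s : K) : M7 K := !![
  1, 0, 0, 0, 0, 0, 0;
  0, 1, s, 0, 0, 0, 0;
  0, 0, 1, 0, 0, 0, 0;
  0, 0, 0, 1, 0, 0, 0;
  0, 0, 0, 0, 1, 0, 0;
  0, 0, 0, 0, -s, 1, 0;
  0, 0, 0, 0, 0, 0, 1]

@[inherit_doc eB]
def eT (s t : K) : M7 K := !![
  1, 0, 0, 0, 0, 0, 0;
  0, t, 0, 0, 0, 0, 0;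
  0, 0, 1, 0, 0, 0, 0;
  0, 0, 0, s, 0, 0, 0;
  0, 0, 0, 0, s, 0, 0;
  0, 0, 0, 0, 0, 1, 0;
  0, 0, 0, 0, 0, 0, t]

@[inherit_doc eB]
def eW (K : Type*) [Field K] : M7 K := !![
  -1, 0, 0, 0, 0, 0, 0;
  0, 0, 0, 0, 0, -1, 0;
  0, 0, 0, 0, -1, 0, 0;
  0, 0, 0, 0, 0, 0, 1;
  0, 0, -1, 0, 0, 0, 0;
  0, -1, 0, 0, 0, 0, 0;
  0, 0, 0, 1, 0, 0, 0]

theorem eB_mv (s : K) (x : V7 K) :
    eB s *ᵥ x = ![x 0, x 1, x 2 + s * x 3, x 3, x 4, x 5, x 6 - s * x 5] := by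
  funext i
  fin_cases i <;> simp [eB, Matrix.mulVec, dotProduct, Fin.sum_univ_succ] <;> ring

theorem eAB_mv (s : K) (x : V7 K) :
    eAB s *ᵥ x = ![x 0 - s * x 3, x 1 - s * x 5, x 2 + s * x 4, x 3, x 4, x 5,
      x 6 + 2 * s * x 0 - s ^ 2 * x 3] := by
  funext i
  fin_cases i <;> simp [eAB, Matrix.mulVec, dotProduct, Fin.sum_univ_succ] <;> ring

theorem eAAB_mv (s : K) (x : V7 K) :
    eAAB s *ᵥ x = ![x 0 - s * x 4, x 1 + 2 * s * x 0 - s ^ 2 * x 4, x 2, x 3, x 4,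
      x 5 - s * x 3, x 6 + s * x 2] := by
  funext i
  fin_cases i <;> simp [eAAB, Matrix.mulVec, dotProduct, Fin.sum_univ_succ] <;> ring

theorem eC_mv (s : K) (x : V7 K) :
    eC s *ᵥ x = ![x 0, x 1 + s * x 2, x 2, x 3, x 4, x 5 - s * x 4, x 6] := by
  funext i
  fin_cases i <;> simp [eC, Matrix.mulVec, dotProduct, Fin.sum_univ_succ] <;> ring

theorem eT_mv (s t : K) (x : V7 K) :
    eT s t *ᵥ x = ![x 0, t * x 1, x 2, s * x 3, s * x 4, x 5, t * x 6] := by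
  funext i
  fin_cases i <;> simp [eT, Matrix.mulVec, dotProduct, Fin.sum_univ_succ]

theorem eW_mv (x : V7 K) :
    eW K *ᵥ x = ![-x 0, -x 5, -x 4, x 6, -x 2, -x 1, x 3] := by
  funext i
  fin_cases i <;> simp [eW, Matrix.mulVec, dotProduct, Fin.sum_univ_succ]

theorem isG_of {g h : M7 K} (h1 : ∀ x, g *ᵥ (h *ᵥ x) = x) (h2 : ∀ x, h *ᵥ (g *ᵥ x) = x)
    (h3 : ∀ x y : V7 K, g *ᵥ br x y = br (g *ᵥ x) (g *ᵥ y)) : IsG g h := by
  refine ⟨ext_mv fun x => ?_, ext_mv fun x => ?_, h3⟩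
  · rw [← mulVec_mulVec, h1, one_mulVec]
  · rw [← mulVec_mulVec, h2, one_mulVec]

theorem isG_eB (s : K) : IsG (eB s) (eB (-s)) := by
  refine isG_of (fun x => ?_) (fun x => ?_) (fun x y => ?_) <;>
  · simp only [eB_mv]
    funext i
    fin_cases i <;> simp [br, -mul_eq_mul_left_iff] <;> ring

theorem isG_eAB (s : K) : IsG (eAB s) (eAB (-s)) := by
  refine isG_of (fun x => ?_) (fun x => ?_) (fun x y => ?_) <;>
  · simp only [eAB_mv]
    funext i
    fin_cases i <;> simp [br, -mul_eq_mul_left_iff] <;> ring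

theorem isG_eAAB (s : K) : IsG (eAAB s) (eAAB (-s)) := by
  refine isG_of (fun x => ?_) (fun x => ?_) (fun x y => ?_) <;>
  · simp only [eAAB_mv]
    funext i
    fin_cases i <;> simp [br, -mul_eq_mul_left_iff] <;> ring

theorem isG_eC (s : K) : IsG (eC s) (eC (-s)) := by
  refine isG_of (fun x => ?_) (fun x => ?_) (fun x y => ?_) <;>
  · simp only [eC_mv]
    funext i
    fin_cases i <;> simp [br, -mul_eq_mul_left_iff] <;> ring

theorem isG_eT {s t : K} (hst : s * t = 1) : IsG (eT s t) (eT t s) := by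
  refine isG_of (fun x => ?_) (fun x => ?_) (fun x y => ?_)
  · simp only [eT_mv]
    funext i
    fin_cases i <;> simp [← mul_assoc, hst, mul_comm t s]
  · simp only [eT_mv]
    funext i
    fin_cases i <;> simp [← mul_assoc, hst, mul_comm t s]
  · simp only [eT_mv]
    funext i
    fin_cases i
    · simp [br, -mul_eq_mul_left_iff]
      linear_combination (-(x 1 * y 4) - x 3 * y 6 + x 4 * y 1 + x 6 * y 3) * hst
    · simp [br, -mul_eq_mul_left_iff]
      ring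
    · simp [br, -mul_eq_mul_left_iff]
      linear_combination (2 * (x 6 * y 4 - x 4 * y 6)) * hst
    · simp [br, -mul_eq_mul_left_iff]
      ring
    · simp [br, -mul_eq_mul_left_iff]
      ring
    · simp [br, -mul_eq_mul_left_iff]
      linear_combination (2 * (-(x 3 * y 1) + x 1 * y 3)) * hst
    · simp [br, -mul_eq_mul_left_iff]
      ring

theorem isG_eW : IsG (eW K) (eW K) := by
  refine isG_of (fun x => ?_) (fun x => ?_) (fun x y => ?_) <;>
  · simp only [eW_mv]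
    funext i
    fin_cases i <;> simp [br, -mul_eq_mul_left_iff] <;> ring

/-- Conjugation by an automorphism which preserves the quadratic form. -/
def Cq (X Y : M7 K) : Prop :=
  ∃ g h : M7 K, IsG g h ∧ (∀ x, qq (g *ᵥ x) = qq x) ∧ Y = g * X * h

theorem Cq.cj {X Y : M7 K} (h : Cq X Y) : Cj X Y := by
  obtain ⟨g, h, H, _, e⟩ := h
  exact ⟨g, h, H, e⟩

theorem Cq.trans {X Y Z : M7 K} (h : Cq X Y) (h' : Cq Y Z) : Cq X Z := by
  obtain ⟨g, h, H, q, rfl⟩ := h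
  obtain ⟨g', h', H', q', rfl⟩ := h'
  refine ⟨g' * g, h * h', H'.mul H, fun x => ?_, by simp only [Matrix.mul_assoc]⟩
  rw [← mulVec_mulVec, q', q]

theorem Cq.ker {X Y : M7 K} (h : Cq X Y) (e : V7 K) (he : qq e ≠ 0) (hY : Y *ᵥ e = 0) :
    ∃ e, qq e ≠ 0 ∧ X *ᵥ e = 0 := by
  obtain ⟨g, h, H, q, rfl⟩ := h
  refine ⟨h *ᵥ e, ?_, ?_⟩
  · rw [← q, mulVec_mulVec, H.1, one_mulVec]
    exact he
  · have : h *ᵥ ((g * X * h) *ᵥ e) = 0 := by rw [hY, mulVec_zero]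
    rw [mulVec_mulVec, ← Matrix.mul_assoc, ← Matrix.mul_assoc, H.2.1, Matrix.one_mul,
      ← mulVec_mulVec] at this
    exact this

/-- A criterion for conjugacy. -/
theorem cq_of {g h X Y : M7 K} (H : IsG g h) (q : ∀ x, qq (g *ᵥ x) = qq x)
    (e : ∀ x, g *ᵥ (X *ᵥ x) = Y *ᵥ (g *ᵥ x)) : Cq X Y := by
  refine ⟨g, h, H, q, ?_⟩
  have : g * X = Y * g := ext_mv fun x => by rw [← mulVec_mulVec, ← mulVec_mulVec, e]
  rw [this, Matrix.mul_assoc, H.1, Matrix.mul_one]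

theorem step1 (p r b d c s : K) : Cq (X5 p r b d c) (X5 p (r - p * s) b d (c - s)) := by
  refine cq_of (isG_eB s) (fun x => ?_) (fun x => ?_)
  · simp only [eB_mv]
    simp [qq]
    ring
  · simp only [eB_mv, X5_mv]
    funext i
    fin_cases i <;> simp <;> ring

theorem step2 (p r b d c s : K) :
    Cq (X5 p r b d c) (X5 p (r + 3 * d * s - 3 * s ^ 2) b (d - 2 * s) c) := by
  refine cq_of (isG_eAB s) (fun x => ?_) (fun x => ?_)
  · simp only [eAB_mv]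
    simp [qq]
    ring
  · simp only [eAB_mv, X5_mv]
    funext i
    fin_cases i <;> simp <;> ring

theorem step3 (p r b d c s : K) :
    Cq (X5 p r b d c) (X5 (p - 3 * s) (r - 3 * c * s) b d c) := by
  refine cq_of (isG_eAAB s) (fun x => ?_) (fun x => ?_)
  · simp only [eAAB_mv]
    simp [qq]
    ring
  · simp only [eAAB_mv, X5_mv]
    funext i
    fin_cases i <;> simp <;> ring

theorem step4 (p r b d c s : K) : Cq (X5 p r b d c) (X5 p (r + b * s) b d c) := by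
  refine cq_of (isG_eC s) (fun x => ?_) (fun x => ?_)
  · simp only [eC_mv]
    simp [qq]
    ring
  · simp only [eC_mv, X5_mv]
    funext i
    fin_cases i <;> simp <;> ring

theorem step5 {b : K} (hb : b ≠ 0) : Cq (X5 0 0 b 0 0) (N4 K) := by
  have hb' : b * b⁻¹ = 1 := mul_inv_cancel₀ hb
  have e : N4 K = X5 0 0 1 0 0 := rfl
  rw [e]
  refine cq_of (isG_eT hb') (fun x => ?_) (fun x => ?_)
  · simp only [eT_mv]
    simp [qq]
    linear_combination (x 1 * x 4 + x 3 * x 6) * hb'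
  · simp only [eT_mv, X5_mv]
    funext i
    fin_cases i
    · simp
    · simp
    · simp
    · simp
    · simp
    · simp
    · simp
      linear_combination (x 5) * hb'

theorem N2_mv (x : V7 K) : N2 K *ᵥ x = ![-x 4, 2 * x 0, 0, 0, 0, -x 3, x 2] := by
  funext i
  fin_cases i <;> simp [N2, gM, Matrix.mulVec, dotProduct, Fin.sum_univ_succ]

theorem step6 : Cq (X5 0 0 0 0 0) (N2 K) := by
  refine cq_of isG_eW (fun x => ?_) (fun x => ?_)
  · simp only [eW_mv]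
    simp [qq]
    ring
  · simp only [eW_mv, X5_mv, N2_mv]
    funext i
    fin_cases i <;> simp

/-- NILD: nilpotent elements adapted to a good flag. -/
theorem nild (K : Type*) [Field K] [CharZero K] (hP : PARAM_S K) : NILD_S K := by
  intro X hX _ h1 h6
  obtain ⟨f, rfl⟩ := (hP X).mp hX
  have e0 := congrFun h1 0
  have e1 := congrFun h1 1
  have e2 := congrFun h1 2
  have e3 := congrFun h1 3
  have e5 := congrFun h1 5
  have e6 := congrFun h1 6
  have g1 := congrFun h6 1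
  have g5 := congrFun h6 5
  have g6 := congrFun h6 6
  simp [ee, gM] at e0 e1 e2 e3 e5 e6 g1 g5 g6
  have hf : f = ![0, 0, f 2, f 3, 0, f 5, 0, 0, f 8, 0, 0, 0, 1, f 13] := by
    have f1 : f 1 = 0 := by linear_combination g6 - e1
    funext i
    fin_cases i <;> simp [*]
  have key : Cq (gM f) (X5 0 (f 3 - f 2 * f 13 + 3 * f 8 * (f 8 / 2) - 3 * (f 8 / 2) ^ 2)
      (f 5) 0 0) := by
    have k1 := step1 (f 2) (f 3) (f 5) (f 8) (f 13) (f 13)
    rw [sub_self] at k1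
    have k2 := step2 (f 2) (f 3 - f 2 * f 13) (f 5) (f 8) 0 (f 8 / 2)
    have h2 : (2 : K) ≠ 0 := two_ne_zero
    have h3 : (3 : K) ≠ 0 := three_ne_zero
    rw [show f 8 - 2 * (f 8 / 2) = 0 by field_simp; ring] at k2
    have k3 := step3 (f 2) (f 3 - f 2 * f 13 + 3 * f 8 * (f 8 / 2) - 3 * (f 8 / 2) ^ 2) (f 5) 0 0
      (f 2 / 3)
    rw [show f 2 - 3 * (f 2 / 3) = 0 by field_simp; ring, mul_zero, zero_mul, sub_zero] at k3
    have k := (k1.trans k2).trans k3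
    have : X5 (f 2) (f 3) (f 5) (f 8) (f 13) = gM f := by
      rw [X5, ← hf]
    rwa [this] at k
  generalize (f 3 - f 2 * f 13 + 3 * f 8 * (f 8 / 2) - 3 * (f 8 / 2) ^ 2) = r at key
  generalize f 5 = b at key
  by_cases hb : b = 0
  · subst hb
    by_cases hr : r = 0
    · subst hr
      exact Or.inr (Or.inl (Cj.symm' (key.trans step6).cj))
    · refine Or.inl (key.ker ![0, 0, 0, 1, 0, 0, -r] ?_ ?_)
      · simp [qq, hr]
      · rw [X5_mv]
        funext i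
        fin_cases i <;> simp
  · have k4 := step4 0 r b 0 0 (-r / b)
    rw [show r + b * (-r / b) = 0 by field_simp; ring] at k4
    exact Or.inr (Or.inr (Cj.symm' ((key.trans k4).trans (step5 hb)).cj))

end Pool.Agent.Lib.MP_d55432_al.G2.H38
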